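import Mathlib

/-!
# A rank inequality
-/

set_option autoImplicit false

namespace Pool.Agent.Y608.UC.Rank

open Finset

variable {ι : Type*} [Fintype ι]

/-- A sum of `n` rank one kernels: the weighted trace is bounded by the weighted Hilbert–Schmidt norm
of the symmetrised kernel. -/
theorem trace_sq_le (n : ℕ) (w : ι → ℝ) (hw : ∀ P, 0 ≤ w P) (K : ι → ι → ℝ)
    (c : ι → Fin n → ℝ) (v : Fin n → ι → ℝ) (hK : ∀ P Q, K P Q = ∑ j, c P j * v j Q) :
    (2 * ∑ P, w P * K P P) ^ 2 ≤ n * ∑ P, ∑ Q, w P * w Q * (K P Q + K Q P) ^ 2 := by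
  classical
  set a : ι → ℝ := fun P => Real.sqrt (w P) with ha
  have haa : ∀ P, a P * a P = w P := fun P => Real.mul_self_sqrt (hw P)
  set u : Fin n → EuclideanSpace ℝ ι := fun j => WithLp.toLp 2 (fun Q => a Q * v j Q) with hu
  set S : Submodule ℝ (EuclideanSpace ℝ ι) := Submodule.span ℝ (Set.range u) with hS
  have hd : Module.finrank ℝ S ≤ n := by
    have := finrank_range_le_card (R := ℝ) u
    simpa [Set.finrank] using this
  set b := stdOrthonormalBasis ℝ S with hb
  set e : Fin (Module.finrank ℝ S) → ι → ℝ := fun i P => (b i : EuclideanSpace ℝ ι) P with he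
  have hinner : ∀ x y : EuclideanSpace ℝ ι, inner ℝ x y = ∑ Q, x Q * y Q := by
    intro x y
    rw [PiLp.inner_apply]
    refine sum_congr rfl fun Q _ => ?_
    simp [mul_comm]
  have horth : ∀ i j, ∑ P, e i P * e j P = if i = j then 1 else 0 := by
    intro i j
    have h := (orthonormal_iff_ite.mp b.orthonormal) i j
    rw [Submodule.coe_inner, hinner] at h
    exact h
  have hexp : ∀ y ∈ S, ∀ P, y P = ∑ i, (∑ Q, e i Q * y Q) * e i P := by
    intro y hy P
    have h := b.sum_repr' ⟨y, hy⟩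
    have h2 := congrArg (fun z : S => (z : EuclideanSpace ℝ ι) P) h
    simp only [AddSubmonoidClass.coe_finsetSum, Submodule.coe_smul, Submodule.coe_inner, hinner]
      at h2
    have h3 : (∑ i, (∑ Q, (b i : EuclideanSpace ℝ ι) Q * y Q) •
        (b i : EuclideanSpace ℝ ι)) P = ∑ i, (∑ Q, e i Q * y Q) * e i P := by
      simp [he]
    rw [← h3, h2]
  set M : ι → ι → ℝ := fun P Q => a P * a Q * K P Q with hM
  have hrow : ∀ P, (WithLp.toLp 2 (fun Q => M P Q) : EuclideanSpace ℝ ι) ∈ S := by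
    intro P
    have h1 : (WithLp.toLp 2 (fun Q => M P Q) : EuclideanSpace ℝ ι) =
        ∑ j, (a P * c P j) • u j := by
      ext Q
      simp only [hM, hK, hu, WithLp.ofLp_sum, WithLp.ofLp_smul, Finset.sum_apply, Pi.smul_apply,
        smul_eq_mul]
      rw [mul_sum]
      refine sum_congr rfl fun j _ => by ring
    rw [h1]
    exact Submodule.sum_mem _ fun j _ => Submodule.smul_mem _ _
      (Submodule.subset_span (Set.mem_range_self j))
  have hdiag : ∀ P, M P P = ∑ i, (∑ Q, e i Q * M P Q) * e i P := fun P =>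
    hexp _ (hrow P) P
  have htr : ∑ P, M P P = ∑ P, ∑ Q, (∑ i, e i P * e i Q) * M P Q := by
    refine sum_congr rfl fun P _ => ?_
    rw [hdiag P]
    simp only [sum_mul]
    rw [sum_comm]
    refine sum_congr rfl fun Q _ => sum_congr rfl fun i _ => by ring
  have htr2 : ∑ P, M P P = ∑ P, ∑ Q, (∑ i, e i P * e i Q) * M Q P := by
    rw [htr, sum_comm]
    refine sum_congr rfl fun P _ => sum_congr rfl fun Q _ => ?_
    congr 1
    exact sum_congr rfl fun i _ => mul_comm _ _
  have htr3 : 2 * ∑ P, w P * K P P = ∑ x : ι × ι, (∑ i, e i x.1 * e i x.2) *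
      (a x.1 * a x.2 * (K x.1 x.2 + K x.2 x.1)) := by
    have h0 : ∑ P, w P * K P P = ∑ P, M P P := by
      refine sum_congr rfl fun P _ => ?_
      rw [hM, ← haa P]
    rw [h0, two_mul]
    nth_rewrite 1 [htr]
    rw [htr2, ← sum_add_distrib, Fintype.sum_prod_type]
    refine sum_congr rfl fun P _ => ?_
    rw [← sum_add_distrib]
    refine sum_congr rfl fun Q _ => ?_
    simp only [hM]
    ring
  have hPi : ∑ x : ι × ι, (∑ i, e i x.1 * e i x.2) ^ 2 = Module.finrank ℝ S := by
    have h1 : ∀ x : ι × ι, (∑ i, e i x.1 * e i x.2) ^ 2 =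
        ∑ i, ∑ j, (e i x.1 * e j x.1) * (e i x.2 * e j x.2) := by
      intro x
      rw [sq, sum_mul_sum]
      refine sum_congr rfl fun i _ => sum_congr rfl fun j _ => by ring
    simp only [h1]
    rw [sum_comm]
    have h2 : ∀ i, ∑ x : ι × ι, ∑ j, (e i x.1 * e j x.1) * (e i x.2 * e j x.2) = 1 := by
      intro i
      rw [sum_comm]
      have h3 : ∀ j, ∑ x : ι × ι, (e i x.1 * e j x.1) * (e i x.2 * e j x.2) =
          if i = j then 1 else 0 := by
        intro j
        rw [Fintype.sum_prod_type]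
        simp only [← mul_sum]
        rw [← sum_mul, horth]
        split_ifs <;> simp
      simp only [h3]
      simp
    simp only [h2]
    simp
  have hcs := sum_mul_sq_le_sq_mul_sq (univ : Finset (ι × ι))
    (fun x => ∑ i, e i x.1 * e i x.2) (fun x => a x.1 * a x.2 * (K x.1 x.2 + K x.2 x.1))
  rw [← htr3, hPi] at hcs
  have hG : ∑ x : ι × ι, (a x.1 * a x.2 * (K x.1 x.2 + K x.2 x.1)) ^ 2 =
      ∑ P, ∑ Q, w P * w Q * (K P Q + K Q P) ^ 2 := by
    rw [Fintype.sum_prod_type]
    refine sum_congr rfl fun P _ => sum_congr rfl fun Q _ => ?_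
    change (a P * a Q * (K P Q + K Q P)) ^ 2 = _
    rw [← haa P, ← haa Q]
    ring
  rw [hG] at hcs
  refine hcs.trans (mul_le_mul_of_nonneg_right (by exact_mod_cast hd) ?_)
  exact sum_nonneg fun P _ => sum_nonneg fun Q _ =>
    mul_nonneg (mul_nonneg (hw P) (hw Q)) (sq_nonneg _)

end Pool.Agent.Y608.UC.Rank
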