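import Mathlib
import Pool.Agent.Y600.UC.Ent

/-!
# Union-closed families with few dominating elements
-/

set_option autoImplicit false

namespace Pool.Agent.Y608.UC.Tops

open Finset Pool.Agent.Y600.UC

variable {α : Type*} [DecidableEq α]

/-- every member of `A` that contains `x` contains `t` -/
def Dom (A : Finset (Finset α)) (t x : α) : Prop := ∀ R ∈ A, x ∈ R → t ∈ R

open Classical in
/-- the elements of `S` dominated by an element of `W` -/
noncomputable def reg (A : Finset (Finset α)) (W : Finset α) (S : Finset α) : Finset α :=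
  S.filter (fun x => ∃ t ∈ W, Dom A t x)

variable {A : Finset (Finset α)}

omit [DecidableEq α] in
theorem mem_reg {W S : Finset α} {x : α} : x ∈ reg A W S ↔ x ∈ S ∧ ∃ t ∈ W, Dom A t x := by
  unfold reg; classical exact mem_filter

omit [DecidableEq α] in
theorem reg_empty (S : Finset α) : reg A ∅ S = ∅ := by
  ext x; rw [mem_reg]; simp

theorem reg_eq_iff_insert {W S R : Finset α} {t : α} :
    reg A (insert t W) S = reg A (insert t W) R ↔
      reg A W S = reg A W R ∧ reg A {t} S = reg A {t} R := by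
  constructor
  · intro h
    constructor
    · ext x
      have h1 := Finset.ext_iff.mp h x
      rw [mem_reg, mem_reg] at h1 ⊢
      constructor
      · rintro ⟨hx, s, hs, hd⟩
        exact ⟨(h1.mp ⟨hx, s, mem_insert_of_mem hs, hd⟩).1, s, hs, hd⟩
      · rintro ⟨hx, s, hs, hd⟩
        exact ⟨(h1.mpr ⟨hx, s, mem_insert_of_mem hs, hd⟩).1, s, hs, hd⟩
    · ext x
      have h1 := Finset.ext_iff.mp h x
      rw [mem_reg, mem_reg] at h1 ⊢
      constructor
      · rintro ⟨hx, s, hs, hd⟩
        rw [mem_singleton] at hs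
        exact ⟨(h1.mp ⟨hx, s, hs ▸ mem_insert_self _ _, hd⟩).1, s, mem_singleton.mpr hs, hd⟩
      · rintro ⟨hx, s, hs, hd⟩
        rw [mem_singleton] at hs
        exact ⟨(h1.mpr ⟨hx, s, hs ▸ mem_insert_self _ _, hd⟩).1, s, mem_singleton.mpr hs, hd⟩
  · rintro ⟨h1, h2⟩
    ext x
    have h1' := Finset.ext_iff.mp h1 x
    have h2' := Finset.ext_iff.mp h2 x
    rw [mem_reg, mem_reg] at h1' h2' ⊢
    constructor
    · rintro ⟨hx, s, hs, hd⟩
      rcases mem_insert.mp hs with h | h
      · exact ⟨(h2'.mp ⟨hx, s, mem_singleton.mpr h, hd⟩).1, s, hs, hd⟩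
      · exact ⟨(h1'.mp ⟨hx, s, h, hd⟩).1, s, hs, hd⟩
    · rintro ⟨hx, s, hs, hd⟩
      rcases mem_insert.mp hs with h | h
      · exact ⟨(h2'.mpr ⟨hx, s, mem_singleton.mpr h, hd⟩).1, s, hs, hd⟩
      · exact ⟨(h1'.mpr ⟨hx, s, h, hd⟩).1, s, hs, hd⟩

/-- the members with the trace `P` on `T` -/
def cls (A : Finset (Finset α)) (T P : Finset α) : Finset (Finset α) :=
  A.filter (fun S => T ∩ S = P)

theorem mem_cls {T P S : Finset α} : S ∈ cls A T P ↔ S ∈ A ∧ T ∩ S = P := by
  unfold cls; rw [mem_filter]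

/-- the tops with index less than `i` -/
def fst (t : ℕ → α) (i : ℕ) : Finset α := (range i).image t

theorem fst_succ (t : ℕ → α) (i : ℕ) : fst t (i + 1) = insert (t i) (fst t i) := by
  unfold fst; rw [range_add_one, image_insert]

theorem fst_zero (t : ℕ → α) : fst t 0 = ∅ := by
  unfold fst; simp

/-- `log` of the number of the members in the class of `S` with the same part below the first `i` tops -/
noncomputable def L (A : Finset (Finset α)) (T : Finset α) (t : ℕ → α) (i : ℕ) (S : Finset α) : ℝ :=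
  Real.log (fb (cls A T (T ∩ S)) (reg A (fst t i)) S)

/-- the information of step `i` -/
noncomputable def dl (A : Finset (Finset α)) (T : Finset α) (t : ℕ → α) (i : ℕ) (S : Finset α) : ℝ :=
  L A T t i S - L A T t (i + 1) S

theorem fb_anti {Ω : Finset (Finset α)} {p q : Finset α → Finset α} {S : Finset α}
    (h : ∀ R ∈ Ω, q R = q S → p R = p S) : fb Ω q S ≤ fb Ω p S := by
  unfold fb
  refine card_le_card fun R hR => ?_
  rw [mem_filter] at hR ⊢
  exact ⟨hR.1, h R hR.1 hR.2⟩

theorem dl_nonneg {T : Finset α} {t : ℕ → α} {i : ℕ} {S : Finset α} (hS : S ∈ A) :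
    0 ≤ dl A T t i S := by
  have hSc : S ∈ cls A T (T ∩ S) := mem_cls.mpr ⟨hS, rfl⟩
  unfold dl L
  have h1 : (0 : ℝ) < fb (cls A T (T ∩ S)) (reg A (fst t (i + 1))) S := by
    exact_mod_cast fb_pos _ hSc
  have h2 : fb (cls A T (T ∩ S)) (reg A (fst t (i + 1))) S ≤
      fb (cls A T (T ∩ S)) (reg A (fst t i)) S := by
    refine fb_anti fun R _ h => ?_
    rw [fst_succ] at h
    exact (reg_eq_iff_insert.mp h).1
  have h3 := Real.log_le_log h1 (Nat.cast_le.mpr h2)
  linarith

/-- no information in the steps of the tops which are not in `S` -/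
theorem dl_zero {T : Finset α} {t : ℕ → α} {i : ℕ} {S : Finset α} (hS : S ∈ A) (hT : t i ∈ T)
    (h : t i ∉ S) : dl A T t i S = 0 := by
  unfold dl L
  have : fb (cls A T (T ∩ S)) (reg A (fst t i)) S =
      fb (cls A T (T ∩ S)) (reg A (fst t (i + 1))) S := by
    refine fb_congr fun R hR => ?_
    rw [fst_succ, reg_eq_iff_insert]
    have hz : ∀ Q ∈ A, T ∩ Q = T ∩ S → reg A {t i} Q = ∅ := by
      intro Q hQ hQS
      rw [eq_empty_iff_forall_notMem]
      intro x hx
      rw [mem_reg] at hx
      obtain ⟨hxQ, s, hs, hd⟩ := hx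
      rw [mem_singleton] at hs
      subst hs
      have h1 : t i ∈ T ∩ Q := mem_inter.mpr ⟨hT, hd Q hQ hxQ⟩
      rw [hQS] at h1
      exact h (mem_inter.mp h1).2
    have hRA := mem_cls.mp hR
    rw [hz R hRA.1 hRA.2, hz S hS rfl]
    simp
  rw [this]
  ring

theorem dl_sum {T : Finset α} {t : ℕ → α} {k : ℕ} {S : Finset α} (hS : S ∈ A)
    (hk : fst t k = T) (hdom : ∀ R ∈ A, ∀ x ∈ R, ∃ s ∈ T, Dom A s x) :
    ∑ i ∈ range k, dl A T t i S = Real.log ((cls A T (T ∩ S)).card) := by
  unfold dl
  rw [sum_range_sub' (fun i => L A T t i S)]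
  have hSc : S ∈ cls A T (T ∩ S) := mem_cls.mpr ⟨hS, rfl⟩
  have h0 : fb (cls A T (T ∩ S)) (reg A (fst t 0)) S = (cls A T (T ∩ S)).card := by
    unfold fb
    congr 1
    rw [filter_eq_self]
    intro R _
    rw [fst_zero, reg_empty, reg_empty]
  have h1 : fb (cls A T (T ∩ S)) (reg A (fst t k)) S = 1 := by
    unfold fb
    rw [card_eq_one]
    refine ⟨S, ?_⟩
    ext R
    rw [mem_filter, mem_singleton, hk]
    have hreg : ∀ R ∈ A, reg A T R = R := by
      intro R hR
      ext x
      rw [mem_reg]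
      exact ⟨fun h => h.1, fun h => ⟨h, hdom R hR x h⟩⟩
    constructor
    · rintro ⟨hR, h⟩
      rwa [hreg R (mem_cls.mp hR).1, hreg S hS] at h
    · rintro rfl
      exact ⟨hSc, rfl⟩
  simp only [L]
  rw [h0, h1]
  simp

/-- The polymatroid inequality. -/
theorem dl_sub {T P : Finset α} {t : ℕ → α} {k : ℕ} (W : Finset α) :
    ∑ S ∈ cls A T P, ∑ i ∈ (range k).filter (fun i => t i ∈ W), dl A T t i S ≤
      ∑ S ∈ cls A T P, (Real.log ((cls A T P).card) -
        Real.log (fb (cls A T P) (reg A ((fst t k).filter (fun s => s ∈ W))) S)) := by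
  induction k with
  | zero =>
    simp only [range_zero, filter_empty, sum_empty, fst_zero, sum_const_zero]
    refine sum_nonneg fun S hS => ?_
    have h1 : fb (cls A T P) (reg A ∅) S = (cls A T P).card := by
      unfold fb
      congr 1
      rw [filter_eq_self]
      intro R _
      rw [reg_empty, reg_empty]
    rw [h1]
    simp
  | succ k ih =>
    by_cases hk : t k ∈ W
    · have e1 : (range (k + 1)).filter (fun i => t i ∈ W) =
          insert k ((range k).filter (fun i => t i ∈ W)) := by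
        rw [range_add_one, filter_insert, if_pos hk]
      have e2 : (fst t (k + 1)).filter (fun s => s ∈ W) =
          insert (t k) ((fst t k).filter (fun s => s ∈ W)) := by
        rw [fst_succ, filter_insert, if_pos hk]
      have e3 : ∀ S, ∑ i ∈ (range (k + 1)).filter (fun i => t i ∈ W), dl A T t i S =
          dl A T t k S + ∑ i ∈ (range k).filter (fun i => t i ∈ W), dl A T t i S := by
        intro S
        rw [e1, sum_insert]
        simp
      simp only [e3, e2]
      rw [sum_add_distrib]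
      have hcls : ∀ S ∈ cls A T P, cls A T (T ∩ S) = cls A T P := by
        intro S hS
        rw [(mem_cls.mp hS).2]
      have hsub := ent_submod (cls A T P) (reg A ((fst t k).filter (fun s => s ∈ W)))
        (reg A (fst t k)) (reg A {t k}) (by
          intro S _ R _ h
          ext x
          have h1 := Finset.ext_iff.mp h x
          rw [mem_reg, mem_reg] at h1 ⊢
          constructor
          · rintro ⟨hx, s, hs, hd⟩
            exact ⟨(h1.mp ⟨hx, s, (mem_filter.mp hs).1, hd⟩).1, s, hs, hd⟩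
          · rintro ⟨hx, s, hs, hd⟩
            exact ⟨(h1.mpr ⟨hx, s, (mem_filter.mp hs).1, hd⟩).1, s, hs, hd⟩)
      have hdl : ∑ S ∈ cls A T P, dl A T t k S = ∑ S ∈ cls A T P,
          (Real.log (fb (cls A T P) (reg A (fst t k)) S) -
            Real.log (fb (cls A T P) (fun F => (reg A (fst t k) F, reg A {t k} F)) S)) := by
        refine sum_congr rfl fun S hS => ?_
        unfold dl L
        rw [hcls S hS]
        congr 2
        have : fb (cls A T P) (reg A (fst t (k + 1))) S =
            fb (cls A T P) (fun F => (reg A (fst t k) F, reg A {t k} F)) S := by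
          refine fb_congr fun R _ => ?_
          rw [fst_succ, reg_eq_iff_insert, Prod.mk.injEq]
        rw [this]
      have h3 : ∀ S ∈ cls A T P,
          fb (cls A T P) (fun F => (reg A ((fst t k).filter (fun s => s ∈ W)) F, reg A {t k} F)) S =
            fb (cls A T P) (reg A (insert (t k) ((fst t k).filter (fun s => s ∈ W)))) S := by
        intro S _
        refine fb_congr fun R _ => ?_
        rw [reg_eq_iff_insert, Prod.mk.injEq]
      rw [hdl]
      have h4 : ∑ S ∈ cls A T P, (Real.log (fb (cls A T P)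
            (reg A ((fst t k).filter (fun s => s ∈ W))) S) -
          Real.log (fb (cls A T P) (fun F => (reg A ((fst t k).filter (fun s => s ∈ W)) F,
            reg A {t k} F)) S)) =
          ∑ S ∈ cls A T P, (Real.log (fb (cls A T P)
            (reg A ((fst t k).filter (fun s => s ∈ W))) S) -
          Real.log (fb (cls A T P) (reg A (insert (t k) ((fst t k).filter (fun s => s ∈ W)))) S)) := by
        refine sum_congr rfl fun S hS => ?_
        rw [h3 S hS]
      rw [h4] at hsub
      have hz := sum_sub_distrib (s := cls A T P) (f := fun _ => Real.log ((cls A T P).card))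
        (g := fun S => Real.log (fb (cls A T P) (reg A ((fst t k).filter (fun s => s ∈ W))) S))
      have hz2 := sum_sub_distrib (s := cls A T P) (f := fun _ => Real.log ((cls A T P).card))
        (g := fun S => Real.log (fb (cls A T P)
          (reg A (insert (t k) ((fst t k).filter (fun s => s ∈ W)))) S))
      have hz3 := sum_sub_distrib (s := cls A T P)
        (f := fun S => Real.log (fb (cls A T P) (reg A ((fst t k).filter (fun s => s ∈ W))) S))
        (g := fun S => Real.log (fb (cls A T P)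
          (reg A (insert (t k) ((fst t k).filter (fun s => s ∈ W)))) S))
      linarith
    · have e1 : (range (k + 1)).filter (fun i => t i ∈ W) = (range k).filter (fun i => t i ∈ W) := by
        rw [range_add_one, filter_insert, if_neg hk]
      have e2 : (fst t (k + 1)).filter (fun s => s ∈ W) = (fst t k).filter (fun s => s ∈ W) := by
        rw [fst_succ, filter_insert, if_neg hk]
      rw [e1, e2]
      exact ih

/-- the parts of members of two classes below `P \ Q` and `Q \ P` can be read off the union -/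
theorem prod_le (hU : ∀ X ∈ A, ∀ Y ∈ A, X ∪ Y ∈ A) {T P Q : Finset α} (hP : P ⊆ T) (hQ : Q ⊆ T) :
    ((cls A T P).image (reg A (P \ Q))).card * ((cls A T Q).image (reg A (Q \ P))).card ≤
      A.card := by
  rw [← card_product]
  refine le_trans (card_le_card ?_)
    (card_image_le (s := A) (f := fun Z => (reg A (P \ Q) Z, reg A (Q \ P) Z)))
  rintro ⟨u, v⟩ huv
  obtain ⟨hu, hv⟩ := mem_product.mp huv
  obtain ⟨S, hS, hSu⟩ := mem_image.mp hu
  obtain ⟨R, hR, hRv⟩ := mem_image.mp hv
  rw [mem_cls] at hS hR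
  refine mem_image.mpr ⟨S ∪ R, hU S hS.1 R hR.1, ?_⟩
  have key : ∀ (P Q S R : Finset α), P ⊆ T → S ∈ A → R ∈ A → T ∩ R = Q →
      reg A (P \ Q) (S ∪ R) = reg A (P \ Q) S := by
    intro P Q S R hP hS hR hRQ
    ext x
    rw [mem_reg, mem_reg]
    constructor
    · rintro ⟨hx, s, hs, hd⟩
      refine ⟨?_, s, hs, hd⟩
      rcases mem_union.mp hx with h | h
      · exact h
      · exfalso
        rw [mem_sdiff] at hs
        apply hs.2
        rw [← hRQ, mem_inter]
        exact ⟨hP hs.1, hd R hR h⟩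
    · rintro ⟨hx, s, hs, hd⟩
      exact ⟨mem_union_left _ hx, s, hs, hd⟩
  have e1 := key P Q S R hP hS.1 hR.1 hR.2
  have e2 := key Q P R S hQ hR.1 hS.1 hS.2
  rw [union_comm R S] at e2
  change (reg A (P \ Q) (S ∪ R), reg A (Q \ P) (S ∪ R)) = (u, v)
  rw [e1, e2, hSu, hRv]

theorem ent_le {T P : Finset α} (W : Finset α) :
    ∑ S ∈ cls A T P, (Real.log ((cls A T P).card) - Real.log (fb (cls A T P) (reg A W) S)) ≤
      (cls A T P).card * Real.log (((cls A T P).image (reg A W)).card) := by
  have h := ent_le_log (cls A T P) (fun _ => ()) (reg A W)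
    (fun _ => (((cls A T P).image (reg A W)).card : ℝ)) (fun _ _ _ _ _ => rfl)
    (fun _ _ _ _ _ => rfl) (by
      intro F _
      simp)
  have h1 : ∀ F, fb (cls A T P) (fun _ => ()) F = (cls A T P).card := by
    intro F
    unfold fb
    simp
  simp only [h1] at h
  rw [sum_const, nsmul_eq_mul] at h
  exact h

theorem class_le {T P Q : Finset α} {t : ℕ → α} {k : ℕ} (hk : fst t k = T) (hP : P ⊆ T) :
    ∑ S ∈ cls A T P, ∑ i ∈ (range k).filter (fun i => t i ∈ P \ Q), dl A T t i S ≤
      (cls A T P).card * Real.log (((cls A T P).image (reg A (P \ Q))).card) := by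
  have h := dl_sub (A := A) (T := T) (P := P) (t := t) (k := k) (P \ Q)
  rw [hk] at h
  have e : T.filter (fun s => s ∈ P \ Q) = P \ Q := by
    ext s
    rw [mem_filter]
    exact ⟨fun h => h.2, fun h => ⟨hP (mem_sdiff.mp h).1, h⟩⟩
  rw [e] at h
  exact h.trans (ent_le _)

theorem pair_le (hU : ∀ X ∈ A, ∀ Y ∈ A, X ∪ Y ∈ A) {T P Q : Finset α} {t : ℕ → α} {k : ℕ}
    (hk : fst t k = T) (hP : P ⊆ T) (hQ : Q ⊆ T) (hPn : (cls A T P).Nonempty)
    (hQn : (cls A T Q).Nonempty) :
    ((cls A T Q).card : ℝ) *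
        ∑ S ∈ cls A T P, ∑ i ∈ (range k).filter (fun i => t i ∈ P \ Q), dl A T t i S +
      ((cls A T P).card : ℝ) *
        ∑ R ∈ cls A T Q, ∑ i ∈ (range k).filter (fun i => t i ∈ Q \ P), dl A T t i R ≤
      (cls A T P).card * (cls A T Q).card * Real.log A.card := by
  have h1 := class_le (A := A) (Q := Q) hk hP
  have h2 := class_le (A := A) (Q := P) hk hQ
  set p : ℝ := ((cls A T P).card : ℝ)
  set q : ℝ := ((cls A T Q).card : ℝ)
  have hp : 0 ≤ p := by positivity
  have hq : 0 ≤ q := by positivity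
  set a : ℕ := ((cls A T P).image (reg A (P \ Q))).card with ha
  set b : ℕ := ((cls A T Q).image (reg A (Q \ P))).card with hb
  have ha0 : 0 < a := card_pos.mpr (hPn.image _)
  have hb0 : 0 < b := card_pos.mpr (hQn.image _)
  have hab : a * b ≤ A.card := prod_le hU hP hQ
  have hlog : Real.log a + Real.log b ≤ Real.log A.card := by
    rw [← Real.log_mul (by exact_mod_cast ha0.ne') (by exact_mod_cast hb0.ne')]
    refine Real.log_le_log (by positivity) ?_
    exact_mod_cast hab
  have h3 := mul_le_mul_of_nonneg_left h1 hq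
  have h4 := mul_le_mul_of_nonneg_left h2 hp
  have h5 := mul_le_mul_of_nonneg_left hlog (mul_nonneg hp hq)
  nlinarith [h3, h4, h5]

/-- The main inequality in terms of the classes. -/
theorem classes (hU : ∀ X ∈ A, ∀ Y ∈ A, X ∪ Y ∈ A) {T : Finset α} {t : ℕ → α} {k : ℕ}
    (hk : fst t k = T) (hdom : ∀ R ∈ A, ∀ x ∈ R, ∃ s ∈ T, Dom A s x) (c : ℕ)
    (hc : ∀ s ∈ T, c ≤ (A.filter (fun R => s ∉ R)).card) :
    2 * (c : ℝ) * ∑ P ∈ A.image (fun S => T ∩ S), ((cls A T P).card : ℝ) *
        Real.log ((cls A T P).card) ≤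
      ((A.card : ℝ) ^ 2 - ∑ P ∈ A.image (fun S => T ∩ S), ((cls A T P).card : ℝ) ^ 2) *
        Real.log A.card := by
  set I := A.image (fun S => T ∩ S) with hI
  have hIT : ∀ P ∈ I, P ⊆ T := by
    intro P hP
    obtain ⟨S, _, rfl⟩ := mem_image.mp hP
    exact inter_subset_left
  have hIn : ∀ P ∈ I, (cls A T P).Nonempty := by
    intro P hP
    obtain ⟨S, hS, hSP⟩ := mem_image.mp hP
    exact ⟨S, mem_cls.mpr ⟨hS, hSP⟩⟩
  have htT : ∀ i ∈ range k, t i ∈ T := by
    intro i hi
    rw [← hk]
    exact mem_image_of_mem t hi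
  -- sums over the classes
  have hsumA : ∀ g : Finset α → ℝ, ∑ S ∈ A, g S = ∑ P ∈ I, ∑ S ∈ cls A T P, g S := by
    intro g
    rw [← sum_fiberwise_of_maps_to (s := A) (t := I) (g := fun S => T ∩ S)
      (fun S hS => mem_image_of_mem _ hS)]
    rfl
  set X : Finset α → Finset α → ℝ := fun S R =>
    ∑ i ∈ (range k).filter (fun i => t i ∉ R), dl A T t i S with hX
  -- lower bound
  have hlow : (c : ℝ) * ∑ P ∈ I, ((cls A T P).card : ℝ) * Real.log ((cls A T P).card) ≤
      ∑ S ∈ A, ∑ R ∈ A, X S R := by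
    have e1 : ∀ S ∈ A, ∑ R ∈ A, X S R =
        ∑ i ∈ range k, ((A.filter (fun R => t i ∉ R)).card : ℝ) * dl A T t i S := by
      intro S _
      simp only [hX, sum_filter]
      rw [sum_comm]
      refine sum_congr rfl fun i _ => ?_
      rw [← sum_filter, sum_const, nsmul_eq_mul]
    rw [sum_congr rfl e1]
    have e2 : ∑ S ∈ A, ∑ i ∈ range k, (c : ℝ) * dl A T t i S ≤
        ∑ S ∈ A, ∑ i ∈ range k, ((A.filter (fun R => t i ∉ R)).card : ℝ) * dl A T t i S := by
      refine sum_le_sum fun S hS => sum_le_sum fun i hi => ?_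
      exact mul_le_mul_of_nonneg_right (by exact_mod_cast hc _ (htT i hi)) (dl_nonneg hS)
    refine le_trans (le_of_eq ?_) e2
    have e3 : ∀ S ∈ A, ∑ i ∈ range k, (c : ℝ) * dl A T t i S =
        c * Real.log ((cls A T (T ∩ S)).card) := by
      intro S hS
      rw [← mul_sum, dl_sum hS hk hdom]
    rw [sum_congr rfl e3, ← mul_sum, hsumA]
    congr 1
    refine sum_congr rfl fun P _ => ?_
    rw [sum_congr rfl (g := fun _ => Real.log ((cls A T P).card)), sum_const, nsmul_eq_mul]
    intro S hS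
    rw [(mem_cls.mp hS).2]
  -- upper bound
  have hX1 : ∀ P ∈ I, ∀ Q ∈ I, ∑ S ∈ cls A T P, ∑ R ∈ cls A T Q, X S R =
      ((cls A T Q).card : ℝ) *
        ∑ S ∈ cls A T P, ∑ i ∈ (range k).filter (fun i => t i ∈ P \ Q), dl A T t i S := by
    intro P _ Q _
    rw [mul_sum]
    refine sum_congr rfl fun S hS => ?_
    have : ∀ R ∈ cls A T Q, X S R =
        ∑ i ∈ (range k).filter (fun i => t i ∈ P \ Q), dl A T t i S := by
      intro R hR
      simp only [hX]
      rw [mem_cls] at hS hR
      rw [sum_filter, sum_filter]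
      refine sum_congr rfl fun i hi => ?_
      have hiT := htT i hi
      have h1 : t i ∈ Q ↔ t i ∈ R := by
        rw [← hR.2, mem_inter]
        exact ⟨fun h => h.2, fun h => ⟨hiT, h⟩⟩
      have h2 : t i ∈ P ↔ t i ∈ S := by
        rw [← hS.2, mem_inter]
        exact ⟨fun h => h.2, fun h => ⟨hiT, h⟩⟩
      have h0 : t i ∈ P \ Q ↔ t i ∈ S ∧ t i ∉ R := by rw [mem_sdiff, h1, h2]
      by_cases h3 : t i ∈ R
      · rw [if_neg (not_not.mpr h3), if_neg (fun h => (h0.mp h).2 h3)]
      · by_cases h4 : t i ∈ S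
        · rw [if_pos h3, if_pos (h0.mpr ⟨h4, h3⟩)]
        · rw [if_pos h3, if_neg (fun h => h4 (h0.mp h).1), dl_zero hS.1 hiT h4]
    rw [sum_congr rfl this, sum_const, nsmul_eq_mul]
  have hup : 2 * ∑ S ∈ A, ∑ R ∈ A, X S R ≤
      ∑ P ∈ I, ∑ Q ∈ I, (if P = Q then 0 else
        ((cls A T P).card : ℝ) * (cls A T Q).card * Real.log A.card) := by
    have e1 : ∑ S ∈ A, ∑ R ∈ A, X S R =
        ∑ P ∈ I, ∑ Q ∈ I, ∑ S ∈ cls A T P, ∑ R ∈ cls A T Q, X S R := by
      rw [hsumA]
      refine sum_congr rfl fun P _ => ?_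
      rw [sum_comm (s := I)]
      refine sum_congr rfl fun S _ => ?_
      exact hsumA _
    have e2 : ∑ S ∈ A, ∑ R ∈ A, X S R =
        ∑ P ∈ I, ∑ Q ∈ I, ∑ S ∈ cls A T Q, ∑ R ∈ cls A T P, X S R := by
      rw [e1, sum_comm]
    rw [two_mul]
    nth_rewrite 1 [e1]
    rw [e2, ← sum_add_distrib]
    refine sum_le_sum fun P hP => ?_
    rw [← sum_add_distrib]
    refine sum_le_sum fun Q hQ => ?_
    rw [hX1 P hP Q hQ, hX1 Q hQ P hP]
    by_cases hPQ : P = Q
    · subst hPQ
      rw [if_pos rfl]
      simp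
    · rw [if_neg hPQ]
      exact pair_le hU hk (hIT P hP) (hIT Q hQ) (hIn P hP) (hIn Q hQ)
  have hcardI : ∑ P ∈ I, ((cls A T P).card : ℝ) = A.card := by
    have := hsumA (fun _ => 1)
    simp only [sum_const, nsmul_eq_mul, mul_one] at this
    exact this.symm
  have hsq : ∑ P ∈ I, ∑ Q ∈ I, (if P = Q then 0 else
        ((cls A T P).card : ℝ) * (cls A T Q).card * Real.log A.card) =
      ((A.card : ℝ) ^ 2 - ∑ P ∈ I, ((cls A T P).card : ℝ) ^ 2) * Real.log A.card := by
    have e1 : ∀ P ∈ I, ∑ Q ∈ I, (if P = Q then 0 else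
        ((cls A T P).card : ℝ) * (cls A T Q).card * Real.log A.card) =
        ((cls A T P).card : ℝ) * A.card * Real.log A.card -
          ((cls A T P).card : ℝ) ^ 2 * Real.log A.card := by
      intro P hP
      have e2 : ∀ Q ∈ I, (if P = Q then (0 : ℝ) else
          ((cls A T P).card : ℝ) * (cls A T Q).card * Real.log A.card) =
          ((cls A T P).card : ℝ) * (cls A T Q).card * Real.log A.card -
            (if P = Q then ((cls A T P).card : ℝ) ^ 2 * Real.log A.card else 0) := by
        intro Q _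
        by_cases h : P = Q
        · subst h
          simp only [if_true]
          ring
        · simp only [if_neg h, sub_zero]
      rw [sum_congr rfl e2, sum_sub_distrib, sum_ite_eq, if_pos hP, ← sum_mul, ← mul_sum, hcardI]
    rw [sum_congr rfl e1, sum_sub_distrib, ← sum_mul, ← sum_mul, ← sum_mul, hcardI]
    ring
  rw [hsq] at hup
  linarith

/-- enumeration of a finite set -/
theorem exists_enum [Nonempty α] (T : Finset α) : ∃ (t : ℕ → α) (k : ℕ), fst t k = T := by
  induction T using Finset.induction_on with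
  | empty => exact ⟨fun _ => Classical.arbitrary α, 0, fst_zero _⟩
  | insert a T _ ih =>
    obtain ⟨t, k, hk⟩ := ih
    refine ⟨Function.update t k a, k + 1, ?_⟩
    rw [fst_succ, Function.update_self, ← hk]
    congr 1
    unfold fst
    refine image_congr fun i hi => ?_
    have : i ≠ k := by
      have := mem_range.mp hi
      omega
    simp [Function.update_of_ne this]

/-- **The main inequality.** -/
theorem main (hU : ∀ X ∈ A, ∀ Y ∈ A, X ∪ Y ∈ A) {T : Finset α}
    (hdom : ∀ R ∈ A, ∀ x ∈ R, ∃ s ∈ T, Dom A s x) (hA : A.Nonempty) (hA2 : A ≠ {∅}) :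
    ∃ s ∈ T, 1 ≤ (A.filter (fun R => s ∈ R)).card ∧
      2 * ((A.image (fun S => T ∩ S)).card : ℝ) *
        ((A.card : ℝ) - (A.filter (fun R => s ∈ R)).card) *
        (Real.log A.card - Real.log ((A.image (fun S => T ∩ S)).card)) ≤
      (((A.image (fun S => T ∩ S)).card : ℝ) - 1) * A.card * Real.log A.card := by
  -- a nonempty member
  obtain ⟨S₀, hS₀, x₀, hx₀⟩ : ∃ S ∈ A, S.Nonempty := by
    by_contra hcon
    push Not at hcon
    apply hA2
    ext S
    rw [mem_singleton]
    constructor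
    · exact hcon S
    · rintro rfl
      obtain ⟨R, hR⟩ := hA
      rw [← hcon R hR]
      exact hR
  have hα : Nonempty α := ⟨x₀⟩
  obtain ⟨s₀, hs₀, hd₀⟩ := hdom S₀ hS₀ x₀ hx₀
  obtain ⟨s, hs, hmax⟩ := T.exists_max_image (fun s => (A.filter (fun R => s ∈ R)).card) ⟨s₀, hs₀⟩
  obtain ⟨t, k, hk⟩ := exists_enum T
  refine ⟨s, hs, ?_, ?_⟩
  · refine le_trans ?_ (hmax s₀ hs₀)
    exact card_pos.mpr ⟨S₀, mem_filter.mpr ⟨hS₀, hd₀ S₀ hS₀ hx₀⟩⟩
  have hsplit : ∀ u : α, (A.filter (fun R => u ∈ R)).card + (A.filter (fun R => u ∉ R)).card =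
      A.card := fun u => card_filter_add_card_filter_not (s := A) (fun R => u ∈ R)
  have hcl := classes hU hk hdom (A.card - (A.filter (fun R => s ∈ R)).card) (by
    intro u hu
    have h1 := hmax u hu
    have h2 := hsplit u
    omega)
  have hc : ((A.card - (A.filter (fun R => s ∈ R)).card : ℕ) : ℝ) =
      (A.card : ℝ) - (A.filter (fun R => s ∈ R)).card := by
    rw [Nat.cast_sub (card_filter_le _ _)]
  rw [hc] at hcl
  set c : ℝ := (A.card : ℝ) - (A.filter (fun R => s ∈ R)).card with hcdef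
  have hc0 : 0 ≤ c := by
    rw [hcdef, sub_nonneg]
    exact_mod_cast card_filter_le _ _
  set I := A.image (fun S => T ∩ S) with hI
  have hIn : ∀ P ∈ I, 0 < (cls A T P).card := by
    intro P hP
    obtain ⟨S, hS, hSP⟩ := mem_image.mp hP
    exact card_pos.mpr ⟨S, mem_cls.mpr ⟨hS, hSP⟩⟩
  have hm : (0 : ℝ) < A.card := by exact_mod_cast card_pos.mpr hA
  have hr : (0 : ℝ) < I.card := by exact_mod_cast card_pos.mpr (hA.image _)
  have hcardI : ∑ P ∈ I, ((cls A T P).card : ℝ) = A.card := by
    have h := card_eq_sum_card_fiberwise (s := A) (t := I) (f := fun S => T ∩ S)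
      (fun S hS => mem_image_of_mem _ hS)
    have h2 : (A.card : ℝ) = ((∑ P ∈ I, (A.filter (fun S => T ∩ S = P)).card : ℕ) : ℝ) := by
      exact_mod_cast h
    rw [h2]
    push_cast
    rfl
  -- the two estimates
  have h1 : (A.card : ℝ) * (Real.log A.card - Real.log I.card) ≤
      ∑ P ∈ I, ((cls A T P).card : ℝ) * Real.log ((cls A T P).card) := by
    set y : ℝ := A.card / I.card with hy
    have hy0 : 0 < y := by positivity
    have hlogy : Real.log y = Real.log A.card - Real.log I.card :=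
      Real.log_div hm.ne' hr.ne'
    have hterm : ∀ P ∈ I, ((cls A T P).card : ℝ) * Real.log y + ((cls A T P).card : ℝ) - y ≤
        ((cls A T P).card : ℝ) * Real.log ((cls A T P).card) := by
      intro P hP
      have hn : (0 : ℝ) < (cls A T P).card := by exact_mod_cast hIn P hP
      have h2 := Real.log_le_sub_one_of_pos (x := y / (cls A T P).card) (by positivity)
      rw [Real.log_div hy0.ne' hn.ne'] at h2
      have h3 := mul_le_mul_of_nonneg_left h2 hn.le
      have h4 : ((cls A T P).card : ℝ) * (y / (cls A T P).card - 1) = y - (cls A T P).card := by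
        field_simp
      rw [h4] at h3
      linarith
    have h5 := sum_le_sum hterm
    rw [sum_sub_distrib, sum_add_distrib, ← sum_mul, hcardI, sum_const, nsmul_eq_mul] at h5
    have h6 : (I.card : ℝ) * y = A.card := by
      rw [hy]; field_simp
    rw [h6, hlogy] at h5
    linarith
  have h2 : (A.card : ℝ) ^ 2 ≤ I.card * ∑ P ∈ I, ((cls A T P).card : ℝ) ^ 2 := by
    have := sq_sum_le_card_mul_sum_sq (s := I) (f := fun P => ((cls A T P).card : ℝ))
    rwa [hcardI] at this
  have hlog : 0 ≤ Real.log A.card := Real.log_nonneg (by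
    have : 1 ≤ A.card := card_pos.mpr hA
    exact_mod_cast this)
  set s1 : ℝ := ∑ P ∈ I, ((cls A T P).card : ℝ) * Real.log ((cls A T P).card)
  set s2 : ℝ := ∑ P ∈ I, ((cls A T P).card : ℝ) ^ 2
  set m : ℝ := (A.card : ℝ) with hmdef
  set r : ℝ := (I.card : ℝ) with hrdef
  have h3 : 2 * c * (m * (Real.log m - Real.log r)) ≤ 2 * c * s1 :=
    mul_le_mul_of_nonneg_left h1 (by positivity)
  have h4 : 2 * c * (m * (Real.log m - Real.log r)) ≤ (m ^ 2 - s2) * Real.log m := h3.trans hcl
  have h5 : r * ((m ^ 2 - s2) * Real.log m) ≤ (r - 1) * m ^ 2 * Real.log m := by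
    have : r * (m ^ 2 - s2) ≤ (r - 1) * m ^ 2 := by nlinarith [h2]
    have := mul_le_mul_of_nonneg_right this hlog
    nlinarith [this]
  have h6 := (mul_le_mul_of_nonneg_left h4 hr.le).trans h5
  have h7 : m * (2 * r * c * (Real.log m - Real.log r)) ≤ m * ((r - 1) * m * Real.log m) := by
    nlinarith [h6]
  exact le_of_mul_le_mul_left h7 hm

/-- The consequence for large families. -/
theorem large (hU : ∀ X ∈ A, ∀ Y ∈ A, X ∪ Y ∈ A) {T : Finset α}
    (hdom : ∀ R ∈ A, ∀ x ∈ R, ∃ s ∈ T, Dom A s x) (hA2 : A ≠ {∅})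
    (hlarge : (A.image (fun S => T ∩ S)).card ^ (A.image (fun S => T ∩ S)).card ≤ A.card) :
    ∃ s ∈ T, A.card ≤ 2 * (A.filter (fun R => s ∈ R)).card ∧
      ((A.image (fun S => T ∩ S)).card ^ (A.image (fun S => T ∩ S)).card < A.card →
        A.card < 2 * (A.filter (fun R => s ∈ R)).card) := by
  have hA : A.Nonempty := by
    rw [nonempty_iff_ne_empty]
    rintro rfl
    simp at hlarge
  obtain ⟨s, hs, h1, h2⟩ := main hU hdom hA hA2
  refine ⟨s, hs, ?_⟩
  set r := (A.image (fun S => T ∩ S)).card with hr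
  set m := A.card with hm
  set f := (A.filter (fun R => s ∈ R)).card with hf
  have hfm : f ≤ m := card_filter_le _ _
  have hr1 : 1 ≤ r := card_pos.mpr (hA.image _)
  have hm1 : 1 ≤ m := card_pos.mpr hA
  have hm0 : (0 : ℝ) < m := by exact_mod_cast hm1
  have hr0 : (0 : ℝ) < r := by exact_mod_cast hr1
  rcases Nat.lt_or_ge m 2 with hm2 | hm2
  · exact ⟨by omega, fun _ => by omega⟩
  have hlm : 0 < Real.log m := Real.log_pos (by exact_mod_cast hm2)
  have hfmr : (f : ℝ) ≤ m := by exact_mod_cast hfm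
  rcases Nat.lt_or_ge r 2 with hr2 | hr2
  · have hr' : r = 1 := by omega
    rw [hr'] at h2
    simp only [Nat.cast_one, Real.log_one, sub_zero, sub_self, zero_mul, mul_one] at h2
    have h3 : (m : ℝ) - f ≤ 0 := by
      by_contra hcon
      push Not at hcon
      have := mul_pos (mul_pos (by norm_num : (0 : ℝ) < 2) hcon) hlm
      linarith
    have h4 : m ≤ f := by
      have : (m : ℝ) ≤ f := by linarith
      exact_mod_cast this
    exact ⟨by omega, fun _ => by omega⟩
  have hrl : (1 : ℝ) < r := by exact_mod_cast hr2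
  have hle : (r : ℝ) * Real.log r ≤ Real.log m := by
    rw [← Real.log_pow]
    exact Real.log_le_log (by positivity) (by exact_mod_cast hlarge)
  have hkey : ((r : ℝ) - 1) * Real.log m ≤ r * (Real.log m - Real.log r) := by linarith
  have hc : (0 : ℝ) ≤ m - f := by linarith
  have hrm : 0 < ((r : ℝ) - 1) * Real.log m := mul_pos (by linarith) hlm
  constructor
  · have h3 : 2 * ((m : ℝ) - f) * (((r : ℝ) - 1) * Real.log m) ≤
        m * (((r : ℝ) - 1) * Real.log m) := by
      have := mul_le_mul_of_nonneg_left hkey (by positivity : (0 : ℝ) ≤ 2 * ((m : ℝ) - f))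
      nlinarith [this, h2]
    have h4 : 2 * ((m : ℝ) - f) ≤ m := le_of_mul_le_mul_right h3 hrm
    have h5 : (m : ℝ) ≤ 2 * f := by linarith
    exact_mod_cast h5
  · intro hstrict
    rcases eq_or_lt_of_le hc with hz | hpos
    · have h5 : (m : ℝ) = f := by linarith
      have h6 : m = f := by exact_mod_cast h5
      omega
    have hlt : (r : ℝ) * Real.log r < Real.log m := by
      rw [← Real.log_pow]
      exact Real.log_lt_log (by positivity) (by exact_mod_cast hstrict)
    have hkey2 : ((r : ℝ) - 1) * Real.log m < r * (Real.log m - Real.log r) := by linarith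
    have h3 : 2 * ((m : ℝ) - f) * (((r : ℝ) - 1) * Real.log m) <
        m * (((r : ℝ) - 1) * Real.log m) := by
      have := mul_lt_mul_of_pos_left hkey2 (by linarith : (0 : ℝ) < 2 * ((m : ℝ) - f))
      nlinarith [this, h2]
    have h4 : 2 * ((m : ℝ) - f) < m := lt_of_mul_lt_mul_right h3 hrm.le
    have h5 : (m : ℝ) < 2 * f := by linarith
    exact_mod_cast h5

end Pool.Agent.Y608.UC.Tops
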