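import Mathlib
import Pool.Agent.Y608.UC.Tops
import Pool.Agent.Y608.UC.Rank

/-!
# Union-closed families with few dominating elements, the inequality with the rank
-/

set_option autoImplicit false

namespace Pool.Agent.Y608.UC.TopsK

open Finset Pool.Agent.Y600.UC Pool.Agent.Y608.UC.Tops

variable {α : Type*} [DecidableEq α] {A : Finset (Finset α)}

/-- The main inequality in terms of the classes. -/
theorem classes (hU : ∀ X ∈ A, ∀ Y ∈ A, X ∪ Y ∈ A) {T : Finset α} {t : ℕ → α} {k : ℕ}
    (hk : fst t k = T) (hdom : ∀ R ∈ A, ∀ x ∈ R, ∃ s ∈ T, Dom A s x) (c : ℕ)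
    (hc : ∀ s ∈ T, c ≤ (A.filter (fun R => s ∉ R)).card) :
    2 * ((k : ℝ) + 1) * c * ∑ P ∈ A.image (fun S => T ∩ S), ((cls A T P).card : ℝ) *
        Real.log ((cls A T P).card) ≤
      k * (A.card : ℝ) ^ 2 * Real.log A.card := by
  set I := A.image (fun S => T ∩ S) with hI
  set ℓ := Real.log A.card with hℓ
  rcases A.eq_empty_or_nonempty with hA0 | hAn
  · have hI0 : I = ∅ := by rw [hI, hA0, image_empty]
    rw [hI0, hℓ, hA0]
    simp
  have hℓ0 : 0 ≤ ℓ := Real.log_nonneg (by
    have : 1 ≤ A.card := card_pos.mpr hAn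
    exact_mod_cast this)
  have hIT : ∀ P ∈ I, P ⊆ T := by
    intro P hP
    obtain ⟨S, _, rfl⟩ := mem_image.mp hP
    exact inter_subset_left
  have hIn : ∀ P ∈ I, (cls A T P).Nonempty := by
    intro P hP
    obtain ⟨S, hS, hSP⟩ := mem_image.mp hP
    exact ⟨S, mem_cls.mpr ⟨hS, hSP⟩⟩
  have htT : ∀ i ∈ range k, t i ∈ T := by
    intro i hi
    rw [← hk]
    exact mem_image_of_mem t hi
  have hsumA : ∀ g : Finset α → ℝ, ∑ S ∈ A, g S = ∑ P ∈ I, ∑ S ∈ cls A T P, g S := by
    intro g
    rw [← sum_fiberwise_of_maps_to (s := A) (t := I) (g := fun S => T ∩ S)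
      (fun S hS => mem_image_of_mem _ hS)]
    rfl
  -- the information of step `i` in the class of `P`
  set N : Finset α → ℝ := fun P => ((cls A T P).card : ℝ) with hN
  have hN0 : ∀ P ∈ I, 0 < N P := fun P hP => by
    have := card_pos.mpr (hIn P hP)
    simp only [hN]
    exact_mod_cast this
  set D : Finset α → ℕ → ℝ := fun P i => ∑ S ∈ cls A T P, dl A T t i S with hD
  have hD0 : ∀ P i, 0 ≤ D P i := fun P i => sum_nonneg fun S hS => dl_nonneg (mem_cls.mp hS).1
  have hDz : ∀ P, ∀ i ∈ range k, t i ∉ P → D P i = 0 := by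
    intro P i hi h
    refine sum_eq_zero fun S hS => dl_zero (mem_cls.mp hS).1 (htT i hi) fun h2 => h ?_
    rw [← (mem_cls.mp hS).2, mem_inter]
    exact ⟨htT i hi, h2⟩
  have hDsum : ∀ P, ∑ i ∈ range k, D P i = N P * Real.log (N P) := by
    intro P
    simp only [hD]
    rw [sum_comm]
    have : ∀ S ∈ cls A T P, ∑ i ∈ range k, dl A T t i S = Real.log (N P) := by
      intro S hS
      rw [dl_sum (mem_cls.mp hS).1 hk hdom, (mem_cls.mp hS).2]
    rw [sum_congr rfl this, sum_const, nsmul_eq_mul]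
  have hDfil : ∀ P Q, ∑ S ∈ cls A T P, ∑ i ∈ (range k).filter (fun i => t i ∈ P \ Q), dl A T t i S =
      ∑ i ∈ range k, D P i * (if t i ∈ Q then 0 else 1) := by
    intro P Q
    rw [sum_comm, sum_filter]
    refine sum_congr rfl fun i hi => ?_
    by_cases h1 : t i ∈ Q
    · rw [if_neg (fun h => (mem_sdiff.mp h).2 h1), if_pos h1, mul_zero]
    · rw [if_neg h1, mul_one]
      by_cases h2 : t i ∈ P
      · rw [if_pos (mem_sdiff.mpr ⟨h2, h1⟩)]
      · rw [if_neg (fun h => h2 (mem_sdiff.mp h).1), hDz P i hi h2]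
  have hpair : ∀ P ∈ I, ∀ Q ∈ I,
      N Q * ∑ i ∈ range k, D P i * (if t i ∈ Q then 0 else 1) +
        N P * ∑ i ∈ range k, D Q i * (if t i ∈ P then 0 else 1) ≤ N P * N Q * ℓ := by
    intro P hP Q hQ
    have h := pair_le hU hk (hIT P hP) (hIT Q hQ) (hIn P hP) (hIn Q hQ)
    rw [hDfil, hDfil] at h
    exact h
  -- the kernel
  set K : I → I → ℝ := fun P Q =>
    ℓ / 2 - ∑ i ∈ range k, D P i / N P * (if t i ∈ (Q : Finset α) then 0 else 1) with hK
  have hKsum : ∀ P Q : I, K P Q = ∑ j : Fin (k + 1),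
      (Fin.cons (ℓ / 2) (fun i : Fin k => -(D P i / N P)) : Fin (k + 1) → ℝ) j *
      (Fin.cons (fun _ => 1) (fun i : Fin k => fun Q : I => if t i ∈ (Q : Finset α) then 0 else 1) :
        Fin (k + 1) → I → ℝ) j Q := by
    intro P Q
    rw [Fin.sum_univ_succ]
    simp only [Fin.cons_zero, Fin.cons_succ, mul_one, hK]
    rw [sum_range (fun i => D P i / N P * (if t i ∈ (Q : Finset α) then (0 : ℝ) else 1)),
      sub_eq_add_neg, ← sum_neg_distrib]
    congr 1
    exact sum_congr rfl fun i _ => by ring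
  have hrank := Rank.trace_sq_le (k + 1) (fun P : I => N P) (fun P => (hN0 P P.2).le) K
    (fun P => Fin.cons (ℓ / 2) (fun i : Fin k => -(D P i / N P)))
    (Fin.cons (fun _ => 1) (fun i : Fin k => fun Q : I => if t i ∈ (Q : Finset α) then 0 else 1))
    hKsum
  have hKdiag : ∀ P : I, K P P = ℓ / 2 := by
    intro P
    simp only [hK]
    rw [sum_eq_zero, sub_zero]
    intro i hi
    by_cases h : t i ∈ (P : Finset α)
    · rw [if_pos h, mul_zero]
    · rw [hDz P i hi h]
      simp
  have hcardI : ∑ P ∈ I, N P = A.card := by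
    have := hsumA (fun _ => 1)
    simp only [sum_const, nsmul_eq_mul, mul_one] at this
    exact this.symm
  have hcardI' : ∑ P : I, N P = A.card := by
    rw [← hcardI, ← sum_coe_sort I (fun P => N P)]
  have htr : 2 * ∑ P : I, N P * K P P = ℓ * A.card := by
    simp only [hKdiag]
    rw [← sum_mul, hcardI']
    ring
  rw [htr] at hrank
  -- the weighted kernel
  have hwF : ∀ P Q : I, N P * N Q * (K P Q + K Q P) = N P * N Q * ℓ -
      (N Q * ∑ i ∈ range k, D P i * (if t i ∈ (Q : Finset α) then 0 else 1) +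
        N P * ∑ i ∈ range k, D Q i * (if t i ∈ (P : Finset α) then 0 else 1)) := by
    intro P Q
    have hP := (hN0 P P.2).ne'
    have hQ := (hN0 Q Q.2).ne'
    have e1 : ∀ P Q : I, ∑ i ∈ range k, D P i / N P * (if t i ∈ (Q : Finset α) then 0 else 1) =
        (∑ i ∈ range k, D P i * (if t i ∈ (Q : Finset α) then 0 else 1)) / N P := by
      intro P Q
      rw [sum_div]
      exact sum_congr rfl fun i _ => by ring
    simp only [hK]
    rw [e1, e1]
    field_simp
    ring
  have hF0 : ∀ P Q : I, 0 ≤ K P Q + K Q P := by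
    intro P Q
    have h1 := hpair P P.2 Q Q.2
    have h2 : 0 ≤ N P * N Q * (K P Q + K Q P) := by
      rw [hwF]
      linarith
    have hPQ := mul_pos (hN0 P P.2) (hN0 Q Q.2)
    by_contra hcon
    push Not at hcon
    have := mul_neg_of_pos_of_neg hPQ hcon
    linarith
  have hF1 : ∀ P Q : I, K P Q + K Q P ≤ ℓ := by
    intro P Q
    have e1 : ∀ P Q : I, 0 ≤
        ∑ i ∈ range k, D P i / N P * (if t i ∈ (Q : Finset α) then 0 else 1) := by
      intro P Q
      refine sum_nonneg fun i _ => mul_nonneg (div_nonneg (hD0 _ _) (hN0 P P.2).le) ?_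
      split_ifs <;> norm_num
    have h1 := e1 P Q
    have h2 := e1 Q P
    simp only [hK]
    linarith
  have hFsq : ∑ P : I, ∑ Q : I, N P * N Q * (K P Q + K Q P) ^ 2 ≤
      ℓ * ∑ P : I, ∑ Q : I, N P * N Q * (K P Q + K Q P) := by
    rw [mul_sum]
    refine sum_le_sum fun P _ => ?_
    rw [mul_sum]
    refine sum_le_sum fun Q _ => ?_
    have hPQ := (mul_pos (hN0 P P.2) (hN0 Q Q.2)).le
    have h1 := mul_le_mul_of_nonneg_left (hF1 P Q) (mul_nonneg hPQ (hF0 P Q))
    nlinarith [h1]
  -- the mean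
  have hmean : ∑ P : I, ∑ Q : I, N P * N Q * (K P Q + K Q P) ≤
      (A.card : ℝ) ^ 2 * ℓ - 2 * (c * ∑ P ∈ I, N P * Real.log (N P)) := by
    have e1 : ∑ P : I, ∑ Q : I, N P * N Q * (K P Q + K Q P) =
        (A.card : ℝ) ^ 2 * ℓ - 2 * ∑ P : I, ∑ Q : I,
          N Q * ∑ i ∈ range k, D P i * (if t i ∈ (Q : Finset α) then 0 else 1) := by
      simp only [hwF]
      simp only [sum_sub_distrib, sum_add_distrib]
      have e2 : ∑ P : I, ∑ Q : I, N P * N Q * ℓ = (A.card : ℝ) ^ 2 * ℓ := by
        simp only [← sum_mul, ← mul_sum]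
        rw [hcardI']
        ring
      have e3 : ∑ P : I, ∑ Q : I,
          N P * ∑ i ∈ range k, D Q i * (if t i ∈ (P : Finset α) then 0 else 1) =
          ∑ P : I, ∑ Q : I,
          N Q * ∑ i ∈ range k, D P i * (if t i ∈ (Q : Finset α) then 0 else 1) := sum_comm
      rw [e2, e3]
      ring
    rw [e1]
    have e4 : ∑ P : I, ∑ Q : I,
          N Q * ∑ i ∈ range k, D P i * (if t i ∈ (Q : Finset α) then 0 else 1) =
        ∑ P : I, ∑ i ∈ range k, D P i * ((A.filter (fun R => t i ∉ R)).card : ℝ) := by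
      refine sum_congr rfl fun P _ => ?_
      simp only [mul_sum]
      rw [sum_comm]
      refine sum_congr rfl fun i hi => ?_
      have e5 : ((A.filter (fun R => t i ∉ R)).card : ℝ) =
          ∑ Q : I, N Q * (if t i ∈ (Q : Finset α) then 0 else 1) := by
        rw [sum_coe_sort I (fun Q => N Q * (if t i ∈ Q then (0 : ℝ) else 1))]
        have h1 : ((A.filter (fun R => t i ∉ R)).card : ℝ) =
            ∑ R ∈ A, (if t i ∈ R then (0 : ℝ) else 1) := by
          rw [card_filter]
          push_cast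
          refine sum_congr rfl fun R _ => ?_
          by_cases h : t i ∈ R
          · rw [if_pos h, if_neg (not_not.mpr h)]
          · rw [if_neg h, if_pos h]
        rw [h1, hsumA]
        refine sum_congr rfl fun Q _ => ?_
        rw [sum_congr rfl (g := fun _ => (if t i ∈ Q then (0 : ℝ) else 1)), sum_const,
          nsmul_eq_mul]
        intro R hR
        have h2 : t i ∈ Q ↔ t i ∈ R := by
          rw [← (mem_cls.mp hR).2, mem_inter]
          exact ⟨fun h => h.2, fun h => ⟨htT i hi, h⟩⟩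
        by_cases h : t i ∈ R
        · rw [if_pos h, if_pos (h2.mpr h)]
        · rw [if_neg h, if_neg (fun h3 => h (h2.mp h3))]
      rw [e5, mul_sum]
      exact sum_congr rfl fun Q _ => by ring
    rw [e4]
    have e6 : c * ∑ P ∈ I, N P * Real.log (N P) ≤
        ∑ P : I, ∑ i ∈ range k, D P i * ((A.filter (fun R => t i ∉ R)).card : ℝ) := by
      rw [← sum_coe_sort I (fun P => N P * Real.log (N P)), mul_sum]
      refine sum_le_sum fun P _ => ?_
      rw [← hDsum, mul_sum]
      refine sum_le_sum fun i hi => ?_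
      rw [mul_comm]
      exact mul_le_mul_of_nonneg_left (by exact_mod_cast hc _ (htT i hi)) (hD0 _ _)
    linarith
  -- conclusion
  have hfin : (ℓ * A.card) ^ 2 ≤ ((k : ℝ) + 1) * (ℓ * ((A.card : ℝ) ^ 2 * ℓ -
      2 * (c * ∑ P ∈ I, N P * Real.log (N P)))) := by
    refine hrank.trans ?_
    push_cast
    refine mul_le_mul_of_nonneg_left (hFsq.trans (mul_le_mul_of_nonneg_left hmean hℓ0))
      (by positivity)
  rcases eq_or_lt_of_le hℓ0 with hz | hpos
  · -- only one member
    have hm1 : A.card = 1 := by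
      have h1 : 1 ≤ A.card := card_pos.mpr hAn
      rcases Nat.lt_or_ge 1 A.card with h2 | h2
      · exfalso
        have := Real.log_pos (x := (A.card : ℝ)) (by exact_mod_cast h2)
        rw [← hℓ, ← hz] at this
        exact lt_irrefl _ this
      · omega
    have h2 : ∀ P ∈ I, N P * Real.log (N P) = 0 := by
      intro P _
      have h3 : (cls A T P).card ≤ 1 := by
        rw [← hm1]
        exact card_le_card (filter_subset _ _)
      have h4 : (cls A T P).card = 0 ∨ (cls A T P).card = 1 := by omega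
      simp only [hN]
      rcases h4 with h4 | h4 <;> rw [h4] <;> simp
    rw [sum_eq_zero h2, ← hz]
    simp
  · set Sg := ∑ P ∈ I, N P * Real.log (N P)
    have h1 : ℓ * (ℓ * (A.card : ℝ) ^ 2) ≤
        ℓ * (((k : ℝ) + 1) * ((A.card : ℝ) ^ 2 * ℓ - 2 * (c * Sg))) := by
      calc ℓ * (ℓ * (A.card : ℝ) ^ 2) = (ℓ * A.card) ^ 2 := by ring
        _ ≤ _ := hfin
        _ = _ := by ring
    have h2 := le_of_mul_le_mul_left h1 hpos
    change 2 * ((k : ℝ) + 1) * c * Sg ≤ k * (A.card : ℝ) ^ 2 * ℓ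
    nlinarith [h2]

/-- enumeration of a finite set -/
theorem exists_enum [Nonempty α] (T : Finset α) : ∃ t : ℕ → α, fst t T.card = T := by
  induction T using Finset.induction_on with
  | empty => exact ⟨fun _ => Classical.arbitrary α, fst_zero _⟩
  | insert a T ha ih =>
    obtain ⟨t, hk⟩ := ih
    refine ⟨Function.update t T.card a, ?_⟩
    rw [card_insert_of_notMem ha, fst_succ, Function.update_self]
    congr 1
    have : fst (Function.update t T.card a) T.card = fst t T.card := by
      unfold fst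
      refine image_congr fun i hi => ?_
      have : i ≠ T.card := by
        have := mem_range.mp hi
        omega
      simp [Function.update_of_ne this]
    rw [this, hk]

/-- **The main inequality.** -/
theorem main (hU : ∀ X ∈ A, ∀ Y ∈ A, X ∪ Y ∈ A) {T : Finset α}
    (hdom : ∀ R ∈ A, ∀ x ∈ R, ∃ s ∈ T, Dom A s x) (hA : A.Nonempty) (hA2 : A ≠ {∅}) :
    ∃ s ∈ T, 1 ≤ (A.filter (fun R => s ∈ R)).card ∧
      2 * ((T.card : ℝ) + 1) *
        ((A.card : ℝ) - (A.filter (fun R => s ∈ R)).card) *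
        (Real.log A.card - Real.log ((A.image (fun S => T ∩ S)).card)) ≤
      T.card * A.card * Real.log A.card := by
  -- a nonempty member
  obtain ⟨S₀, hS₀, x₀, hx₀⟩ : ∃ S ∈ A, S.Nonempty := by
    by_contra hcon
    push Not at hcon
    apply hA2
    ext S
    rw [mem_singleton]
    constructor
    · exact hcon S
    · rintro rfl
      obtain ⟨R, hR⟩ := hA
      rw [← hcon R hR]
      exact hR
  have hα : Nonempty α := ⟨x₀⟩
  obtain ⟨s₀, hs₀, hd₀⟩ := hdom S₀ hS₀ x₀ hx₀
  obtain ⟨s, hs, hmax⟩ := T.exists_max_image (fun s => (A.filter (fun R => s ∈ R)).card) ⟨s₀, hs₀⟩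
  obtain ⟨t, hk⟩ := exists_enum T
  refine ⟨s, hs, ?_, ?_⟩
  · refine le_trans ?_ (hmax s₀ hs₀)
    exact card_pos.mpr ⟨S₀, mem_filter.mpr ⟨hS₀, hd₀ S₀ hS₀ hx₀⟩⟩
  have hsplit : ∀ u : α, (A.filter (fun R => u ∈ R)).card + (A.filter (fun R => u ∉ R)).card =
      A.card := fun u => card_filter_add_card_filter_not (s := A) (fun R => u ∈ R)
  have hcl := classes hU hk hdom (A.card - (A.filter (fun R => s ∈ R)).card) (by
    intro u hu
    have h1 := hmax u hu
    have h2 := hsplit u
    omega)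
  have hc : ((A.card - (A.filter (fun R => s ∈ R)).card : ℕ) : ℝ) =
      (A.card : ℝ) - (A.filter (fun R => s ∈ R)).card := by
    rw [Nat.cast_sub (card_filter_le _ _)]
  rw [hc] at hcl
  set c : ℝ := (A.card : ℝ) - (A.filter (fun R => s ∈ R)).card with hcdef
  have hc0 : 0 ≤ c := by
    rw [hcdef, sub_nonneg]
    exact_mod_cast card_filter_le _ _
  set I := A.image (fun S => T ∩ S) with hI
  have hIn : ∀ P ∈ I, 0 < (cls A T P).card := by
    intro P hP
    obtain ⟨S, hS, hSP⟩ := mem_image.mp hP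
    exact card_pos.mpr ⟨S, mem_cls.mpr ⟨hS, hSP⟩⟩
  have hm : (0 : ℝ) < A.card := by exact_mod_cast card_pos.mpr hA
  have hr : (0 : ℝ) < I.card := by exact_mod_cast card_pos.mpr (hA.image _)
  have hcardI : ∑ P ∈ I, ((cls A T P).card : ℝ) = A.card := by
    have h := card_eq_sum_card_fiberwise (s := A) (t := I) (f := fun S => T ∩ S)
      (fun S hS => mem_image_of_mem _ hS)
    have h2 : (A.card : ℝ) = ((∑ P ∈ I, (A.filter (fun S => T ∩ S = P)).card : ℕ) : ℝ) := by
      exact_mod_cast h
    rw [h2]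
    push_cast
    rfl
  have h1 : (A.card : ℝ) * (Real.log A.card - Real.log I.card) ≤
      ∑ P ∈ I, ((cls A T P).card : ℝ) * Real.log ((cls A T P).card) := by
    set y : ℝ := A.card / I.card with hy
    have hy0 : 0 < y := by positivity
    have hlogy : Real.log y = Real.log A.card - Real.log I.card :=
      Real.log_div hm.ne' hr.ne'
    have hterm : ∀ P ∈ I, ((cls A T P).card : ℝ) * Real.log y + ((cls A T P).card : ℝ) - y ≤
        ((cls A T P).card : ℝ) * Real.log ((cls A T P).card) := by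
      intro P hP
      have hn : (0 : ℝ) < (cls A T P).card := by exact_mod_cast hIn P hP
      have h2 := Real.log_le_sub_one_of_pos (x := y / (cls A T P).card) (by positivity)
      rw [Real.log_div hy0.ne' hn.ne'] at h2
      have h3 := mul_le_mul_of_nonneg_left h2 hn.le
      have h4 : ((cls A T P).card : ℝ) * (y / (cls A T P).card - 1) = y - (cls A T P).card := by
        field_simp
      rw [h4] at h3
      linarith
    have h5 := sum_le_sum hterm
    rw [sum_sub_distrib, sum_add_distrib, ← sum_mul, hcardI, sum_const, nsmul_eq_mul] at h5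
    have h6 : (I.card : ℝ) * y = A.card := by
      rw [hy]; field_simp
    rw [h6, hlogy] at h5
    linarith
  have h3 := mul_le_mul_of_nonneg_left h1 (by positivity : 0 ≤ 2 * ((T.card : ℝ) + 1) * c)
  have h4 := h3.trans hcl
  have h7 : (A.card : ℝ) * (2 * ((T.card : ℝ) + 1) * c * (Real.log A.card - Real.log I.card)) ≤
      A.card * (T.card * A.card * Real.log A.card) := by
    calc (A.card : ℝ) * (2 * ((T.card : ℝ) + 1) * c * (Real.log A.card - Real.log I.card)) =
        2 * ((T.card : ℝ) + 1) * c * (A.card * (Real.log A.card - Real.log I.card)) := by ring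
      _ ≤ _ := h4
      _ = _ := by ring
  exact le_of_mul_le_mul_left h7 hm

/-- The consequence for large families. -/
theorem large (hU : ∀ X ∈ A, ∀ Y ∈ A, X ∪ Y ∈ A) {T : Finset α}
    (hdom : ∀ R ∈ A, ∀ x ∈ R, ∃ s ∈ T, Dom A s x) (hA : A.Nonempty) (hA2 : A ≠ {∅})
    (hlarge : (A.image (fun S => T ∩ S)).card ^ (T.card + 1) ≤ A.card) :
    ∃ s ∈ T, A.card ≤ 2 * (A.filter (fun R => s ∈ R)).card ∧
      ((A.image (fun S => T ∩ S)).card ^ (T.card + 1) < A.card →
        A.card < 2 * (A.filter (fun R => s ∈ R)).card) := by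
  obtain ⟨s, hs, h1, h2⟩ := main hU hdom hA hA2
  refine ⟨s, hs, ?_⟩
  set r := (A.image (fun S => T ∩ S)).card with hr
  set m := A.card with hm
  set f := (A.filter (fun R => s ∈ R)).card with hf
  set k := T.card with hk
  have hfm : f ≤ m := card_filter_le _ _
  have hr1 : 1 ≤ r := card_pos.mpr (hA.image _)
  have hm1 : 1 ≤ m := card_pos.mpr hA
  have hk1 : 1 ≤ k := card_pos.mpr ⟨s, hs⟩
  have hm0 : (0 : ℝ) < m := by exact_mod_cast hm1
  have hr0 : (0 : ℝ) < r := by exact_mod_cast hr1
  have hk0 : (0 : ℝ) < k := by exact_mod_cast hk1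
  rcases Nat.lt_or_ge m 2 with hm2 | hm2
  · exact ⟨by omega, fun _ => by omega⟩
  have hlm : 0 < Real.log m := Real.log_pos (by exact_mod_cast hm2)
  have hfmr : (f : ℝ) ≤ m := by exact_mod_cast hfm
  have hle : ((k : ℝ) + 1) * Real.log r ≤ Real.log m := by
    have : ((k : ℝ) + 1) * Real.log r = Real.log ((r : ℝ) ^ (k + 1)) := by
      rw [Real.log_pow]; push_cast; ring
    rw [this]
    exact Real.log_le_log (by positivity) (by exact_mod_cast hlarge)
  have hkey : (k : ℝ) * Real.log m ≤ (k + 1) * (Real.log m - Real.log r) := by linarith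
  have hc : (0 : ℝ) ≤ m - f := by linarith
  have hrm : 0 < (k : ℝ) * Real.log m := mul_pos hk0 hlm
  constructor
  · have h3 : 2 * ((m : ℝ) - f) * ((k : ℝ) * Real.log m) ≤ m * ((k : ℝ) * Real.log m) := by
      have := mul_le_mul_of_nonneg_left hkey (by positivity : (0 : ℝ) ≤ 2 * ((m : ℝ) - f))
      nlinarith [this, h2]
    have h4 : 2 * ((m : ℝ) - f) ≤ m := le_of_mul_le_mul_right h3 hrm
    have h5 : (m : ℝ) ≤ 2 * f := by linarith
    exact_mod_cast h5
  · intro hstrict
    rcases eq_or_lt_of_le hc with hz | hpos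
    · have h5 : (m : ℝ) = f := by linarith
      have h6 : m = f := by exact_mod_cast h5
      omega
    have hlt : ((k : ℝ) + 1) * Real.log r < Real.log m := by
      have : ((k : ℝ) + 1) * Real.log r = Real.log ((r : ℝ) ^ (k + 1)) := by
        rw [Real.log_pow]; push_cast; ring
      rw [this]
      exact Real.log_lt_log (by positivity) (by exact_mod_cast hstrict)
    have hkey2 : (k : ℝ) * Real.log m < (k + 1) * (Real.log m - Real.log r) := by linarith
    have h3 : 2 * ((m : ℝ) - f) * ((k : ℝ) * Real.log m) < m * ((k : ℝ) * Real.log m) := by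
      have := mul_lt_mul_of_pos_left hkey2 (by linarith : (0 : ℝ) < 2 * ((m : ℝ) - f))
      nlinarith [this, h2]
    have h4 : 2 * ((m : ℝ) - f) < m := lt_of_mul_lt_mul_right h3 hrm.le
    have h5 : (m : ℝ) < 2 * f := by linarith
    exact_mod_cast h5

/-- The asymptotic consequence. -/
theorem asym (hU : ∀ X ∈ A, ∀ Y ∈ A, X ∪ Y ∈ A) {T : Finset α}
    (hdom : ∀ R ∈ A, ∀ x ∈ R, ∃ s ∈ T, Dom A s x) (hA : A.Nonempty) (hA2 : A ≠ {∅}) {ε : ℝ}
    (hε0 : 0 ≤ ε) (hε1 : ε < 1) (hT : (T.card : ℝ) ≤ ε * Real.logb 2 A.card) :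
    ∃ s ∈ T, (1 / 2 - ε / (2 * (1 - ε))) * (A.card : ℝ) ≤ (A.filter (fun R => s ∈ R)).card := by
  obtain ⟨s, hs, h1, h2⟩ := main hU hdom hA hA2
  refine ⟨s, hs, ?_⟩
  have hr : (A.image (fun S => T ∩ S)).card ≤ 2 ^ T.card := by
    rw [← card_powerset]
    refine card_le_card fun P hP => ?_
    obtain ⟨S, _, rfl⟩ := mem_image.mp hP
    exact mem_powerset.mpr inter_subset_left
  have hr1 : 1 ≤ (A.image (fun S => T ∩ S)).card := card_pos.mpr (hA.image _)
  have hm1 : 1 ≤ A.card := card_pos.mpr hA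
  have hk1 : 1 ≤ T.card := card_pos.mpr ⟨s, hs⟩
  have hf : (A.filter (fun R => s ∈ R)).card ≤ A.card := card_filter_le _ _
  set r := (A.image (fun S => T ∩ S)).card
  set m := A.card
  set f := (A.filter (fun R => s ∈ R)).card
  set k := T.card
  have hk0 : (1 : ℝ) ≤ k := by exact_mod_cast hk1
  have hm0 : (1 : ℝ) ≤ m := by exact_mod_cast hm1
  have hfm : (f : ℝ) ≤ m := by exact_mod_cast hf
  -- `log m` is positive
  have hlb : Real.logb 2 m = Real.log m / Real.log 2 := rfl
  have hl2 : 0 < Real.log 2 := Real.log_pos (by norm_num)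
  have hlm0 : 0 ≤ Real.log m := Real.log_nonneg hm0
  have hlm : 0 < Real.log m := by
    rcases hlm0.eq_or_lt with h | h
    · rw [hlb, ← h] at hT
      simp at hT
      linarith
    · exact h
  have hlr : Real.log r ≤ ε * Real.log m := by
    have h3 : Real.log r ≤ k * Real.log 2 := by
      have h4 : Real.log ((2 : ℝ) ^ k) = k * Real.log 2 := by rw [Real.log_pow]
      rw [← h4]
      exact Real.log_le_log (by exact_mod_cast hr1) (by exact_mod_cast hr)
    have h5 := mul_le_mul_of_nonneg_right hT hl2.le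
    rw [hlb] at h5
    have h6 : ε * (Real.log m / Real.log 2) * Real.log 2 = ε * Real.log m := by field_simp
    linarith
  have hc : 0 ≤ (m : ℝ) - f := by linarith
  -- from the main inequality
  have h7 : 2 * ((m : ℝ) - f) * ((1 - ε) * Real.log m) * (k + 1) ≤ m * Real.log m * (k + 1) := by
    have h8 : 2 * ((m : ℝ) - f) * ((1 - ε) * Real.log m) * (k + 1) ≤
        2 * (k + 1) * ((m : ℝ) - f) * (Real.log m - Real.log r) := by
      have h9 : (1 - ε) * Real.log m ≤ Real.log m - Real.log r := by linarith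
      have h10 := mul_le_mul_of_nonneg_left h9 (by positivity : 0 ≤ 2 * ((m : ℝ) - f) * (k + 1))
      linarith
    have h11 : (k : ℝ) * m * Real.log m ≤ m * Real.log m * (k + 1) := by
      have : 0 ≤ (m : ℝ) * Real.log m := by positivity
      linarith
    linarith
  have h12 := le_of_mul_le_mul_right h7 (by positivity : (0 : ℝ) < k + 1)
  have h13 : 2 * ((m : ℝ) - f) * (1 - ε) * Real.log m ≤ m * Real.log m := by linarith
  have h14 := le_of_mul_le_mul_right h13 hlm
  have h15 : 0 < 2 * (1 - ε) := by linarith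
  have h16 : (m : ℝ) - f ≤ m / (2 * (1 - ε)) := by
    rw [le_div_iff₀ h15]
    linarith
  have h1e : (1 : ℝ) - ε ≠ 0 := by linarith
  have h17 : (1 / 2 - ε / (2 * (1 - ε))) * (m : ℝ) = m - m / (2 * (1 - ε)) := by
    field_simp
    ring
  rw [h17]
  linarith

end Pool.Agent.Y608.UC.TopsK
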